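import Pool.Agent.Helper61.Tri.Goals

set_option autoImplicit false

open Finset

namespace Pool.Agent.Helper9.Tri

open Pool.Agent.Helper61.Tri

noncomputable section

open scoped Classical

variable {V : Type} [Fintype V]

lemma mem_cn {G : SimpleGraph V} {u v w : V} : w ∈ cn G u v ↔ G.Adj u w ∧ G.Adj v w := by
  simp [cn]

lemma cn_comm (G : SimpleGraph V) (u v : V) : cn G u v = cn G v u := by
  ext w; simp [cn, and_comm]

/-- edges of `G` in at least `c` triangles -/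
def Hv (G : SimpleGraph V) (c : ℕ) : SimpleGraph V where
  Adj u v := G.Adj u v ∧ c ≤ (cn G u v).card
  symm := ⟨fun u v h => ⟨h.1.symm, by rw [cn_comm]; exact h.2⟩⟩
  loopless := ⟨fun _ h => G.loopless.irrefl _ h.1⟩

/-- edges of `G` in less than `c` triangles -/
def Lt (G : SimpleGraph V) (c : ℕ) : SimpleGraph V where
  Adj u v := G.Adj u v ∧ (cn G u v).card < c
  symm := ⟨fun u v h => ⟨h.1.symm, by rw [cn_comm]; exact h.2⟩⟩
  loopless := ⟨fun _ h => G.loopless.irrefl _ h.1⟩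

lemma upper {G : SimpleGraph V} {T : Finset (V × V × V)} {S : Finset (V × V)} {c : ℕ}
    (hS : ∀ p ∈ S, (cn G p.1 p.2).card ≤ c) (f : V × V × V → (V × V) × V)
    (hf : Function.Injective f)
    (h : ∀ t ∈ T, (f t).1 ∈ S ∧ (f t).2 ∈ cn G (f t).1.1 (f t).1.2) : T.card ≤ c * S.card := by
  have h1 : T.card ≤ (S.sigma fun p => cn G p.1 p.2).card := by
    refine Finset.card_le_card_of_injOn (fun t => (⟨(f t).1, (f t).2⟩ : Σ _ : V × V, V)) ?_ ?_
    · intro t ht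
      have := h t ht
      simpa [Finset.mem_sigma] using this
    · intro t _ t' _ htt
      simp only [Sigma.mk.injEq, heq_eq_eq] at htt
      exact hf (Prod.ext htt.1 htt.2)
  rw [Finset.card_sigma] at h1
  refine h1.trans ?_
  calc ∑ p ∈ S, (cn G p.1 p.2).card ≤ ∑ _p ∈ S, c := Finset.sum_le_sum hS
    _ = c * S.card := by rw [Finset.sum_const, smul_eq_mul, mul_comm]

lemma lower {G : SimpleGraph V} {S : Finset (V × V)} {c : ℕ}
    (hS : ∀ p ∈ S, G.Adj p.1 p.2 ∧ c ≤ (cn G p.1 p.2).card) : c * S.card ≤ (ot G).card := by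
  have h1 : (S.sigma fun p => cn G p.1 p.2).card ≤ (ot G).card := by
    refine Finset.card_le_card_of_injOn (fun t => (t.1.1, t.1.2, t.2)) ?_ ?_
    · rintro ⟨⟨u, v⟩, w⟩ ht
      simp only [Finset.coe_sigma, Set.mem_sigma_iff, Finset.mem_coe] at ht
      have h2 := (hS _ ht.1).1
      have h3 := mem_cn.mp ht.2
      simp only [ot, Finset.coe_filter, Finset.mem_univ, true_and, Set.mem_ofPred_eq]
      exact ⟨h2, h3.1, h3.2⟩
    · rintro ⟨⟨u, v⟩, w⟩ _ ⟨⟨u', v'⟩, w'⟩ _ h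
      simp only [Prod.mk.injEq] at h
      obtain ⟨rfl, rfl, rfl⟩ := h
      rfl
  rw [Finset.card_sigma] at h1
  refine le_trans ?_ h1
  calc c * S.card = ∑ _p ∈ S, c := by rw [Finset.sum_const, smul_eq_mul, mul_comm]
    _ ≤ ∑ p ∈ S, (cn G p.1 p.2).card := Finset.sum_le_sum fun p hp => (hS p hp).2

lemma oe_le (G : SimpleGraph V) : (oe G).card ≤ Fintype.card V ^ 2 := by
  refine (Finset.card_le_univ _).trans (le_of_eq ?_)
  rw [Fintype.card_prod, sq]

lemma mem_ot {G : SimpleGraph V} {u v w : V} :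
    (u, v, w) ∈ ot G ↔ G.Adj u v ∧ G.Adj u w ∧ G.Adj v w := by
  simp [ot]

lemma mem_oe {G : SimpleGraph V} {u v : V} : (u, v) ∈ oe G ↔ G.Adj u v := by
  simp [oe]

/-- the mixed relation -/
def RR (G : SimpleGraph V) (s K c : ℕ) (x w : V) : Prop :=
  G.Adj x w ∧ s + 1 ≤ (cn G x w).card ∧ (cn G x w).card < c ∧
    ∃ y, G.Adj x y ∧ G.Adj w y ∧ K ≤ (cn G x y).card ∧ 3 ≤ (cn G y w).card

/-- count of light triangles -/
lemma light_count (G J : SimpleGraph V) (c : ℕ) (_hJ : J ≤ Lt G c) (hTF : TF J) :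
    (ot (Lt G c)).card ≤ 3 * (c * ((oe (Lt G c)) \ (oe J)).card) := by
  set S := (oe (Lt G c)) \ (oe J) with hS
  have hSc : ∀ p ∈ S, (cn G p.1 p.2).card ≤ c := by
    rintro ⟨u, v⟩ hp
    rw [hS, Finset.mem_sdiff, mem_oe] at hp
    exact hp.1.2.le
  have hcov : ot (Lt G c) ⊆ ((ot (Lt G c)).filter fun t => (t.1, t.2.1) ∈ S) ∪
      (((ot (Lt G c)).filter fun t => (t.1, t.2.2) ∈ S) ∪
        ((ot (Lt G c)).filter fun t => (t.2.1, t.2.2) ∈ S)) := by
    rintro ⟨u, v, w⟩ ht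
    have ht' := mem_ot.mp ht
    simp only [Finset.mem_union, Finset.mem_filter, ht, true_and, hS, Finset.mem_sdiff, mem_oe]
    by_contra hcon
    simp only [not_or, not_and, not_not] at hcon
    obtain ⟨h1, h2, h3⟩ := hcon
    exact hTF u v w (h1 ht'.1) (h2 ht'.2.1) (h3 ht'.2.2)
  have hA : ((ot (Lt G c)).filter fun t => (t.1, t.2.1) ∈ S).card ≤ c * S.card := by
    refine upper hSc (fun t => ((t.1, t.2.1), t.2.2)) ?_ ?_
    · rintro ⟨a, b, d⟩ ⟨a', b', d'⟩ h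
      simp only [Prod.mk.injEq] at h
      obtain ⟨⟨rfl, rfl⟩, rfl⟩ := h
      rfl
    · rintro ⟨u, v, w⟩ ht
      rw [Finset.mem_filter, mem_ot] at ht
      exact ⟨ht.2, mem_cn.mpr ⟨ht.1.2.1.1, ht.1.2.2.1⟩⟩
  have hB : ((ot (Lt G c)).filter fun t => (t.1, t.2.2) ∈ S).card ≤ c * S.card := by
    refine upper hSc (fun t => ((t.1, t.2.2), t.2.1)) ?_ ?_
    · rintro ⟨a, b, d⟩ ⟨a', b', d'⟩ h
      simp only [Prod.mk.injEq] at h
      obtain ⟨⟨rfl, rfl⟩, rfl⟩ := h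
      rfl
    · rintro ⟨u, v, w⟩ ht
      rw [Finset.mem_filter, mem_ot] at ht
      exact ⟨ht.2, mem_cn.mpr ⟨ht.1.1.1, ht.1.2.2.1.symm⟩⟩
  have hC : ((ot (Lt G c)).filter fun t => (t.2.1, t.2.2) ∈ S).card ≤ c * S.card := by
    refine upper hSc (fun t => ((t.2.1, t.2.2), t.1)) ?_ ?_
    · rintro ⟨a, b, d⟩ ⟨a', b', d'⟩ h
      simp only [Prod.mk.injEq] at h
      obtain ⟨⟨rfl, rfl⟩, rfl⟩ := h
      rfl
    · rintro ⟨u, v, w⟩ ht
      rw [Finset.mem_filter, mem_ot] at ht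
      exact ⟨ht.2, mem_cn.mpr ⟨ht.1.1.1.symm, ht.1.2.1.1.symm⟩⟩
  have h1 := Finset.card_le_card hcov
  have h2 := h1.trans (Finset.card_union_le _ _)
  have h3 := Finset.card_union_le ((ot (Lt G c)).filter fun t => (t.1, t.2.2) ∈ S)
    ((ot (Lt G c)).filter fun t => (t.2.1, t.2.2) ∈ S)
  omega

/-- count of mixed triangles -/
lemma mixed_count (G : SimpleGraph V) (s K c : ℕ) (hs : 2 ≤ s) (hK : K ≤ c) :
    (ot (G2 G s)).card ≤ (ot (Hv G c)).card + (ot (Lt G c)).card +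
      6 * (c * (univ.filter fun p : V × V => RR G s K c p.1 p.2).card) := by
  set S := (univ.filter fun p : V × V => RR G s K c p.1 p.2) with hS
  have hmS : ∀ u v : V, (u, v) ∈ S ↔ RR G s K c u v := by
    intro u v; simp [hS]
  have hSc : ∀ p ∈ S, (cn G p.1 p.2).card ≤ c := by
    rintro ⟨u, v⟩ hp
    rw [hmS] at hp
    exact hp.2.2.1.le
  set T := ot (G2 G s) with hT
  have hcov : T ⊆ (ot (Hv G c) ∪ ot (Lt G c)) ∪
      ((((T.filter fun t => (t.1, t.2.1) ∈ S) ∪ (T.filter fun t => (t.2.1, t.1) ∈ S)) ∪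
      ((T.filter fun t => (t.1, t.2.2) ∈ S) ∪ (T.filter fun t => (t.2.2, t.1) ∈ S))) ∪
      ((T.filter fun t => (t.2.1, t.2.2) ∈ S) ∪ (T.filter fun t => (t.2.2, t.2.1) ∈ S))) := by
    rintro ⟨u, v, w⟩ ht
    have ht' := mem_ot.mp (hT ▸ ht)
    obtain ⟨⟨huv, huv2⟩, ⟨huw, huw2⟩, ⟨hvw, hvw2⟩⟩ := ht'
    have e1 := cn_comm G v u
    have e2 := cn_comm G w u
    have e3 := cn_comm G w v
    simp only [Finset.mem_union, Finset.mem_filter, ht, true_and, hmS, mem_ot]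
    rcases lt_or_ge (cn G u v).card c with h1 | h1 <;>
    rcases lt_or_ge (cn G u w).card c with h2 | h2 <;>
    rcases lt_or_ge (cn G v w).card c with h3 | h3
    · -- all light
      left; right
      exact ⟨⟨huv, h1⟩, ⟨huw, h2⟩, ⟨hvw, h3⟩⟩
    · -- uv light, vw heavy : R v u witness w
      right; left; left; right
      exact ⟨huv.symm, by rw [e1]; exact huv2, by rw [e1]; exact h1, w, hvw, huw,
        hK.trans h3, by rw [e2]; omega⟩
    · -- uv light, uw heavy : R u v witness w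
      right; left; left; left
      exact ⟨huv, huv2, h1, w, huw, hvw, hK.trans h2, by rw [e3]; omega⟩
    · -- uv light, uw heavy
      right; left; left; left
      exact ⟨huv, huv2, h1, w, huw, hvw, hK.trans h2, by rw [e3]; omega⟩
    · -- uw light, uv heavy : R u w witness v
      right; left; right; left
      exact ⟨huw, huw2, h2, v, huv, hvw.symm, hK.trans h1, by omega⟩
    · right; left; right; left
      exact ⟨huw, huw2, h2, v, huv, hvw.symm, hK.trans h1, by omega⟩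
    · -- vw light, uv heavy : R v w witness u
      right; right; left
      exact ⟨hvw, hvw2, h3, u, huv.symm, huw.symm, by rw [e1]; exact hK.trans h1, by omega⟩
    · left; left
      exact ⟨⟨huv, h1⟩, ⟨huw, h2⟩, ⟨hvw, h3⟩⟩
  have adj : ∀ u v w : V, (u, v, w) ∈ T → G.Adj u v ∧ G.Adj u w ∧ G.Adj v w := by
    intro u v w ht
    have ht' := mem_ot.mp (hT ▸ ht)
    exact ⟨ht'.1.1, ht'.2.1.1, ht'.2.2.1⟩
  have hA1 : (T.filter fun t => (t.1, t.2.1) ∈ S).card ≤ c * S.card := by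
    refine upper hSc (fun t => ((t.1, t.2.1), t.2.2)) ?_ ?_
    · rintro ⟨a, b, d⟩ ⟨a', b', d'⟩ h
      simp only [Prod.mk.injEq] at h
      obtain ⟨⟨rfl, rfl⟩, rfl⟩ := h
      rfl
    · rintro ⟨u, v, w⟩ ht
      rw [Finset.mem_filter] at ht
      obtain ⟨a1, a2, a3⟩ := adj u v w ht.1
      exact ⟨ht.2, mem_cn.mpr ⟨a2, a3⟩⟩
  have hA2 : (T.filter fun t => (t.2.1, t.1) ∈ S).card ≤ c * S.card := by
    refine upper hSc (fun t => ((t.2.1, t.1), t.2.2)) ?_ ?_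
    · rintro ⟨a, b, d⟩ ⟨a', b', d'⟩ h
      simp only [Prod.mk.injEq] at h
      obtain ⟨⟨rfl, rfl⟩, rfl⟩ := h
      rfl
    · rintro ⟨u, v, w⟩ ht
      rw [Finset.mem_filter] at ht
      obtain ⟨a1, a2, a3⟩ := adj u v w ht.1
      exact ⟨ht.2, mem_cn.mpr ⟨a3, a2⟩⟩
  have hB1 : (T.filter fun t => (t.1, t.2.2) ∈ S).card ≤ c * S.card := by
    refine upper hSc (fun t => ((t.1, t.2.2), t.2.1)) ?_ ?_
    · rintro ⟨a, b, d⟩ ⟨a', b', d'⟩ h
      simp only [Prod.mk.injEq] at h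
      obtain ⟨⟨rfl, rfl⟩, rfl⟩ := h
      rfl
    · rintro ⟨u, v, w⟩ ht
      rw [Finset.mem_filter] at ht
      obtain ⟨a1, a2, a3⟩ := adj u v w ht.1
      exact ⟨ht.2, mem_cn.mpr ⟨a1, a3.symm⟩⟩
  have hB2 : (T.filter fun t => (t.2.2, t.1) ∈ S).card ≤ c * S.card := by
    refine upper hSc (fun t => ((t.2.2, t.1), t.2.1)) ?_ ?_
    · rintro ⟨a, b, d⟩ ⟨a', b', d'⟩ h
      simp only [Prod.mk.injEq] at h
      obtain ⟨⟨rfl, rfl⟩, rfl⟩ := h
      rfl
    · rintro ⟨u, v, w⟩ ht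
      rw [Finset.mem_filter] at ht
      obtain ⟨a1, a2, a3⟩ := adj u v w ht.1
      exact ⟨ht.2, mem_cn.mpr ⟨a3.symm, a1⟩⟩
  have hC1 : (T.filter fun t => (t.2.1, t.2.2) ∈ S).card ≤ c * S.card := by
    refine upper hSc (fun t => ((t.2.1, t.2.2), t.1)) ?_ ?_
    · rintro ⟨a, b, d⟩ ⟨a', b', d'⟩ h
      simp only [Prod.mk.injEq] at h
      obtain ⟨⟨rfl, rfl⟩, rfl⟩ := h
      rfl
    · rintro ⟨u, v, w⟩ ht
      rw [Finset.mem_filter] at ht
      obtain ⟨a1, a2, a3⟩ := adj u v w ht.1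
      exact ⟨ht.2, mem_cn.mpr ⟨a1.symm, a2.symm⟩⟩
  have hC2 : (T.filter fun t => (t.2.2, t.2.1) ∈ S).card ≤ c * S.card := by
    refine upper hSc (fun t => ((t.2.2, t.2.1), t.1)) ?_ ?_
    · rintro ⟨a, b, d⟩ ⟨a', b', d'⟩ h
      simp only [Prod.mk.injEq] at h
      obtain ⟨⟨rfl, rfl⟩, rfl⟩ := h
      rfl
    · rintro ⟨u, v, w⟩ ht
      rw [Finset.mem_filter] at ht
      obtain ⟨a1, a2, a3⟩ := adj u v w ht.1
      exact ⟨ht.2, mem_cn.mpr ⟨a2.symm, a1.symm⟩⟩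
  have h1 := Finset.card_le_card hcov
  refine h1.trans ?_
  refine (Finset.card_union_le _ _).trans ?_
  have k1 := Finset.card_union_le (ot (Hv G c)) (ot (Lt G c))
  have k2 := Finset.card_union_le
    ((((T.filter fun t => (t.1, t.2.1) ∈ S) ∪ (T.filter fun t => (t.2.1, t.1) ∈ S)) ∪
      ((T.filter fun t => (t.1, t.2.2) ∈ S) ∪ (T.filter fun t => (t.2.2, t.1) ∈ S))))
      ((T.filter fun t => (t.2.1, t.2.2) ∈ S) ∪ (T.filter fun t => (t.2.2, t.2.1) ∈ S))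
  have k3 := Finset.card_union_le
    ((T.filter fun t => (t.1, t.2.1) ∈ S) ∪ (T.filter fun t => (t.2.1, t.1) ∈ S))
    ((T.filter fun t => (t.1, t.2.2) ∈ S) ∪ (T.filter fun t => (t.2.2, t.1) ∈ S))
  have k4 := Finset.card_union_le (T.filter fun t => (t.1, t.2.1) ∈ S)
    (T.filter fun t => (t.2.1, t.1) ∈ S)
  have k5 := Finset.card_union_le (T.filter fun t => (t.1, t.2.2) ∈ S)
    (T.filter fun t => (t.2.2, t.1) ∈ S)
  have k6 := Finset.card_union_le (T.filter fun t => (t.2.1, t.2.2) ∈ S)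
    (T.filter fun t => (t.2.2, t.2.1) ∈ S)
  omega

theorem smallg2o : EPTools → KST → Peel → Removal → Mixed → SmallG2 Kind.Co := by
  intro hEP hKST hPeel hRem hMix s hs β hβ
  obtain ⟨N, K, hMix⟩ := hMix s hs
  set C : ℕ := 12 * s + 40 with hC
  obtain ⟨c0, hc0⟩ := exists_nat_gt (3 * (C:ℝ) ^ 2 / β)
  set c : ℕ := max c0 (max K 1) with hc
  have hcK : K ≤ c := (le_max_left _ _).trans (le_max_right _ _)
  have hc1 : 1 ≤ c := (le_max_right K 1).trans (le_max_right _ _)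
  have hcpos : (0:ℝ) < c := by exact_mod_cast hc1
  have hcC : 3 * (C:ℝ) ^ 2 ≤ β * c := by
    have h1 : (c0:ℝ) ≤ c := by exact_mod_cast le_max_left _ _
    rw [div_lt_iff₀ hβ] at hc0
    nlinarith
  obtain ⟨n1, hRem⟩ := hRem (C:ℝ) (β / (9 * c)) (by positivity)
  obtain ⟨β', hβ', n2, hKST⟩ := hKST N (β / (18 * c)) (by positivity)
  obtain ⟨n3, hn3⟩ := exists_nat_gt ((N:ℝ) / β')
  refine ⟨max n1 (max n2 n3), fun V _ hn G hG => ?_⟩
  have hn1 : n1 ≤ Fintype.card V := (le_max_left _ _).trans hn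
  have hn2 : n2 ≤ Fintype.card V := ((le_max_left _ _).trans (le_max_right _ _)).trans hn
  have hn3' : n3 ≤ Fintype.card V := ((le_max_right _ _).trans (le_max_right _ _)).trans hn
  set n := Fintype.card V with hnn
  by_contra hcon
  have hcon := not_le.mp hcon
  -- peeling for subgraphs
  have hpeel : ∀ G' : SimpleGraph V, G' ≤ G → (ot G').card ≤ C * (oe G').card := by
    intro G' hG'
    exact hPeel s (by omega) Kind.Co V G' fun h => hG (hEP.hasMono Kind.Co s hG' h)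
  have hleH : Hv G c ≤ G := fun u v h => h.1
  have hleL : Lt G c ≤ G := fun u v h => h.1
  have hotG : (ot G).card ≤ C * n ^ 2 :=
    (hpeel G le_rfl).trans (Nat.mul_le_mul_left _ (oe_le G))
  -- heavy part
  have hH1 : c * (oe (Hv G c)).card ≤ (ot G).card := by
    refine lower ?_
    rintro ⟨u, v⟩ hp
    exact mem_oe.mp hp
  have hH2 : (ot (Hv G c)).card ≤ C * (oe (Hv G c)).card := hpeel _ hleH
  have hH : ((ot (Hv G c)).card : ℝ) ≤ β / 3 * (n:ℝ) ^ 2 := by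
    have h1 : c * (ot (Hv G c)).card ≤ C * (C * n ^ 2) := by
      calc c * (ot (Hv G c)).card ≤ c * (C * (oe (Hv G c)).card) := Nat.mul_le_mul_left _ hH2
        _ = C * (c * (oe (Hv G c)).card) := by ring
        _ ≤ C * (C * n ^ 2) := Nat.mul_le_mul_left _ (hH1.trans hotG)
    have h2 : (c:ℝ) * ((ot (Hv G c)).card : ℝ) ≤ (C:ℝ) * ((C:ℝ) * (n:ℝ) ^ 2) := by
      exact_mod_cast h1
    have h3 : (c:ℝ) * ((ot (Hv G c)).card : ℝ) ≤ (c:ℝ) * (β / 3 * (n:ℝ) ^ 2) := by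
      have h4 : 0 ≤ (n:ℝ) ^ 2 := by positivity
      nlinarith [mul_le_mul_of_nonneg_right hcC h4]
    exact le_of_mul_le_mul_left h3 hcpos
  -- light part
  have hLcard : ((ot (Lt G c)).card : ℝ) ≤ (C:ℝ) * (n:ℝ) ^ 2 := by
    have h1 := (hpeel _ hleL).trans (Nat.mul_le_mul_left C (oe_le (Lt G c)))
    exact_mod_cast h1
  obtain ⟨J, hJ, hTF, hJcard⟩ := hRem V hn1 (Lt G c) hLcard
  have hsub : oe J ⊆ oe (Lt G c) := by
    rintro ⟨u, v⟩ hp
    exact mem_oe.mpr (hJ (mem_oe.mp hp))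
  have hL : ((ot (Lt G c)).card : ℝ) ≤ β / 3 * (n:ℝ) ^ 2 := by
    have h1 := light_count G J c hJ hTF
    have h2 : (((oe (Lt G c)) \ (oe J)).card : ℝ) = ((oe (Lt G c)).card : ℝ) - ((oe J).card : ℝ) := by
      rw [Finset.card_sdiff_of_subset hsub, Nat.cast_sub (Finset.card_le_card hsub)]
    have h3 : ((ot (Lt G c)).card : ℝ) ≤ 3 * (c * (((oe (Lt G c)) \ (oe J)).card : ℝ)) := by
      exact_mod_cast h1
    rw [h2] at h3
    calc ((ot (Lt G c)).card : ℝ) ≤ 3 * (c * (((oe (Lt G c)).card : ℝ) - ((oe J).card : ℝ))) := h3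
      _ ≤ 3 * (c * (β / (9 * c) * (n:ℝ) ^ 2)) := by gcongr
      _ = β / 3 * (n:ℝ) ^ 2 := by field_simp; ring
  -- mixed part
  have hM := mixed_count G s K c hs hcK
  have hM' : ((ot (G2 G s)).card : ℝ) ≤ ((ot (Hv G c)).card : ℝ) + ((ot (Lt G c)).card : ℝ) +
      6 * (c * ((univ.filter fun p : V × V => RR G s K c p.1 p.2).card : ℝ)) := by
    exact_mod_cast hM
  have hR : β / (18 * c) * (n:ℝ) ^ 2 ≤
      ((univ.filter fun p : V × V => RR G s K c p.1 p.2).card : ℝ) := by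
    have h1 : β / 3 * (n:ℝ) ^ 2 ≤
        6 * (c * ((univ.filter fun p : V × V => RR G s K c p.1 p.2).card : ℝ)) := by linarith
    have h2 : β / (18 * c) * (n:ℝ) ^ 2 = (β / 3 * (n:ℝ) ^ 2) / (6 * c) := by
      field_simp; ring
    rw [h2, div_le_iff₀ (by positivity)]
    linarith
  obtain ⟨x, W, hx, hW, hR⟩ := hKST V hn2 (RR G s K c) hR
  have hNW : N ≤ W.card := by
    have h1 : (n3:ℝ) ≤ n := by exact_mod_cast hn3'
    rw [div_lt_iff₀ hβ'] at hn3
    have h2 : (N:ℝ) ≤ W.card := by nlinarith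
    exact_mod_cast h2
  rcases Nat.eq_zero_or_pos N with hN0 | hN0
  · exact hG (hMix V G x x
      ⟨fun i hi => by omega, fun i hi => by omega, fun i hi => by omega⟩ (fun i hi => by omega))
  have hWne : W.Nonempty := by
    rw [← Finset.card_pos]; omega
  obtain ⟨W', hW', hW'c⟩ := Finset.exists_subset_card_eq hNW
  obtain ⟨w0, hw0⟩ := hWne
  let e := W'.equivFin
  let w : ℕ → V := fun i => if h : i < W'.card then ((e.symm ⟨i, h⟩ : W') : V) else w0
  have hwmem : ∀ i < N, w i ∈ W := by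
    intro i hi
    have h : i < W'.card := by omega
    simp only [w, dif_pos h]
    exact hW' (e.symm ⟨i, h⟩).2
  have hwinj : ∀ i < N, ∀ j < N, w i = w j → i = j := by
    intro i hi j hj hij
    have h1 : i < W'.card := by omega
    have h2 : j < W'.card := by omega
    simp only [w, dif_pos h1, dif_pos h2] at hij
    have := e.symm.injective (Subtype.ext hij)
    simpa using this
  refine hG (hMix V G x w ⟨?_, hx, hwinj⟩ ?_)
  · intro i hi j hj
    exact (hR i hi (w j) (hwmem j hj)).1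
  · intro i hi j hj
    obtain ⟨-, h1, -, h2⟩ := hR i hi (w j) (hwmem j hj)
    exact ⟨h1, h2⟩

end

end Pool.Agent.Helper9.Tri
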